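import Pool.Agent.BEH.StmtsD
import Pool.Agent.Helper39_BEH.Cutc

/-!
# Squad BEH (MP_be01ff_an), row HUD: cut-off functions in dimension `d ≥ 3` (after HU3 of helper39)
-/

set_option autoImplicit false

namespace Pool.Agent.BEH.H60

open Set Filter Topology MeasureTheory
open scoped InnerProductSpace ENNReal
open Pool.Agent.BE01 Pool.Agent.BEL Pool.Agent.BEH Pool.Agent.BEH.H39

noncomputable section

section
variable {d : ℕ}

/-- The radial cut-off functions. -/
theorem cut_ofd {N : ℕ} (rad : RadStmt) (rgr : RgrStmt) (err : ErrStmt) (hd : 0 < d)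
    {B : ℝ} {f : Fin N → En d → ℝ} (hf : ∀ i, Bm B (f i)) (x : En d)
    {R κ γ r r' R' δ : ℝ} {q : ℝ → ℝ} (hr : 0 < r) (hrr : r < r') (hR' : R' < R)
    (hq : ContDiffOn ℝ ((⊤ : ℕ∞) : WithTop ℕ∞) q (Ioi 0)) (h0 : ∀ s, s ≤ r' → q s = 0)
    (h1 : ∀ s, R' ≤ s → q s = 1) (hrng : ∀ s, 0 ≤ q s ∧ q s ≤ 1)
    (hE : sphd d * ∫ ρ in Ioi (0 : ℝ), ρ ^ (d - 1) * deriv q ρ ^ 2 ≤ 5 / 2 * γ)
    (hδ : ∀ i, ∫ y, |f i y - f i x| * deriv q ‖y - x‖ ^ 2 ≤ δ)
    (hκ : 2 * |B| * N * (N * δ) ≤ κ * γ)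
    (hvol : volume.real (Metric.ball x R') ≤ κ * γ) :
    Cut f x R κ γ r (fun y => q ‖y - x‖) := by
  have hr' : 0 < r' := hr.trans hrr
  obtain ⟨hsm, hgr⟩ := rgr d x q r' hr' hq
    (fun s hs => (h0 s hs.le).trans (h0 0 hr'.le).symm)
  have hsq := grad_sq hr' h0 hgr
  refine ⟨hsm, fun y => hrng _, ⟨r', hrr, fun y hy => h0 _ hy⟩,
    ⟨R', hR', fun y hy => h1 _ hy⟩, ?_, ?_⟩
  · intro c
    have hint : Integrable (fun y : En d => deriv q ‖y - x‖ ^ 2) := by
      have hc : Continuous (fun y : En d => deriv q ‖y - x‖ ^ 2) := by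
        have h2 : (fun y : En d => deriv q ‖y - x‖ ^ 2) =
            fun y => ‖gradient (fun y : En d => q ‖y - x‖) y‖ ^ 2 := by
          funext y
          exact (hsq y).symm
        rw [h2]
        exact (cont_grad hsm).norm.pow 2
      refine hc.integrable_of_hasCompactSupport ?_
      refine HasCompactSupport.of_support_subset_isCompact (isCompact_closedBall x R') ?_
      intro y hy
      rw [Function.mem_support] at hy
      rw [Metric.mem_closedBall, dist_eq_norm]
      by_contra hcon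
      push Not at hcon
      apply hy
      rw [deriv_zero_of_gt h1 hcon]
      simp
    have hinti : ∀ i, Integrable (fun y : En d => |f i y - f i x| * deriv q ‖y - x‖ ^ 2) := by
      intro i
      have hm : Measurable (fun y => |f i y - f i x|) :=
        ((hf i).1.sub measurable_const).abs
      refine Integrable.bdd_mul (c := 2 * B) hint hm.aestronglyMeasurable ?_
      refine Eventually.of_forall fun y => ?_
      have a1 := (hf i).2 y
      have a2 := (hf i).2 x
      rw [Real.norm_eq_abs, abs_abs]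
      have a3 := abs_sub (f i y) (f i x)
      linarith
    have hS : 0 ≤ sq c := Finset.sum_nonneg fun i _ => sq_nonneg _
    have hpt : ∀ y, lc f c y ^ 2 * ‖gradient (fun y : En d => q ‖y - x‖) y‖ ^ 2 ≤
        lc f c x ^ 2 * deriv q ‖y - x‖ ^ 2 +
          2 * |B| * N * sq c * ∑ i, |f i y - f i x| * deriv q ‖y - x‖ ^ 2 := by
      intro y
      rw [hsq y]
      have e1 := err d N B f c x y hf
      have e2 : 2 * B * N * sq c * ∑ i, |f i y - f i x| ≤
          2 * |B| * N * sq c * ∑ i, |f i y - f i x| := by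
        apply mul_le_mul_of_nonneg_right _ (Finset.sum_nonneg fun i _ => abs_nonneg _)
        apply mul_le_mul_of_nonneg_right _ hS
        apply mul_le_mul_of_nonneg_right _ (Nat.cast_nonneg N)
        linarith [le_abs_self B]
      calc lc f c y ^ 2 * deriv q ‖y - x‖ ^ 2
          ≤ (lc f c x ^ 2 + 2 * |B| * N * sq c * ∑ i, |f i y - f i x|) *
            deriv q ‖y - x‖ ^ 2 :=
            mul_le_mul_of_nonneg_right (e1.trans (by linarith)) (sq_nonneg _)
        _ = _ := by
            rw [add_mul, ← Finset.sum_mul]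
            ring
    have hsum : Integrable (fun y : En d => ∑ i, |f i y - f i x| * deriv q ‖y - x‖ ^ 2) :=
      integrable_finsetSum _ fun i _ => hinti i
    have hle : ∫ y, lc f c y ^ 2 * ‖gradient (fun y : En d => q ‖y - x‖) y‖ ^ 2 ≤
        ∫ y, (lc f c x ^ 2 * deriv q ‖y - x‖ ^ 2 +
          2 * |B| * N * sq c * ∑ i, |f i y - f i x| * deriv q ‖y - x‖ ^ 2) := by
      refine integral_mono_of_nonneg (Eventually.of_forall fun y => ?_)
        ((hint.const_mul _).add (hsum.const_mul _)) (Eventually.of_forall hpt)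
      exact mul_nonneg (sq_nonneg _) (sq_nonneg _)
    have heq : ∫ y, (lc f c x ^ 2 * deriv q ‖y - x‖ ^ 2 +
          2 * |B| * N * sq c * ∑ i, |f i y - f i x| * deriv q ‖y - x‖ ^ 2) =
        lc f c x ^ 2 * (∫ y : En d, deriv q ‖y - x‖ ^ 2) +
          2 * |B| * N * sq c * ∑ i, ∫ y, |f i y - f i x| * deriv q ‖y - x‖ ^ 2 := by
      rw [integral_add (hint.const_mul _) (hsum.const_mul _), integral_const_mul,
        integral_const_mul, integral_finsetSum _ fun i _ => hinti i]
    have hrad : ∫ y : En d, deriv q ‖y - x‖ ^ 2 ≤ 5 / 2 * γ := by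
      rw [rad d hd x (fun s => deriv q s ^ 2)]
      exact hE
    have hsm2 : ∑ i : Fin N, ∫ y, |f i y - f i x| * deriv q ‖y - x‖ ^ 2 ≤ N * δ := by
      calc ∑ i : Fin N, ∫ y, |f i y - f i x| * deriv q ‖y - x‖ ^ 2 ≤ ∑ i : Fin N, δ :=
            Finset.sum_le_sum fun i _ => hδ i
        _ = N * δ := by simp
    calc ∫ y, lc f c y ^ 2 * ‖gradient (fun y : En d => q ‖y - x‖) y‖ ^ 2
        ≤ lc f c x ^ 2 * (∫ y : En d, deriv q ‖y - x‖ ^ 2) +
          2 * |B| * N * sq c * ∑ i, ∫ y, |f i y - f i x| * deriv q ‖y - x‖ ^ 2 := by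
          rw [← heq]
          exact hle
      _ ≤ lc f c x ^ 2 * (5 / 2 * γ) + 2 * |B| * N * sq c * (N * δ) := by
          apply add_le_add
          · exact mul_le_mul_of_nonneg_left hrad (sq_nonneg _)
          · apply mul_le_mul_of_nonneg_left hsm2
            have := abs_nonneg B
            positivity
      _ = lc f c x ^ 2 * (5 / 2 * γ) + sq c * (2 * |B| * N * (N * δ)) := by ring
      _ ≤ lc f c x ^ 2 * (5 / 2 * γ) + sq c * (κ * γ) := by
          have := mul_le_mul_of_nonneg_left hκ hS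
          linarith
      _ = γ * (5 / 2 * lc f c x ^ 2 + κ * sq c) := by ring
  · refine le_trans (measureReal_mono ?_ (measure_ball_lt_top.ne)) hvol
    intro y hy
    rw [Metric.mem_ball, dist_eq_norm]
    by_contra hcon
    push Not at hcon
    exact hy (h1 _ hcon)

end

/-- the profile `χ ((r / s)^k)` -/
def qd (k : ℕ) (χ : ℝ → ℝ) (r s : ℝ) : ℝ := if s ≤ 0 then 0 else χ ((r / s) ^ k)

theorem qd_pos {k : ℕ} {χ : ℝ → ℝ} {r s : ℝ} (hs : 0 < s) : qd k χ r s = χ ((r / s) ^ k) :=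
  if_neg (not_le.2 hs)

theorem qd_deriv {k : ℕ} {χ : ℝ → ℝ} (hχ : ContDiff ℝ ((⊤ : ℕ∞) : WithTop ℕ∞) χ) {r s : ℝ}
    (hs : 0 < s) :
    deriv (qd k χ r) s = deriv χ ((r / s) ^ k) * (-(k * r ^ k / s ^ (k + 1))) := by
  have h1 : qd k χ r =ᶠ[𝓝 s] fun t => χ (r ^ k * (t ^ k)⁻¹) := by
    filter_upwards [Ioi_mem_nhds hs] with t ht
    rw [qd_pos ht, div_pow, div_eq_mul_inv]
  rw [h1.deriv_eq]
  have h2 : HasDerivAt (fun t : ℝ => r ^ k * (t ^ k)⁻¹) (-(k * r ^ k / s ^ (k + 1))) s := by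
    have h3 := ((hasDerivAt_pow k s).inv (pow_ne_zero k hs.ne')).const_mul (r ^ k)
    have h5 : -(k * r ^ k / s ^ (k + 1)) = r ^ k * (-(↑k * s ^ (k - 1)) / (s ^ k) ^ 2) := by
      rcases Nat.eq_zero_or_pos k with h0 | h0
      · subst h0
        simp
      · obtain ⟨m, rfl⟩ : ∃ m, k = m + 1 := ⟨k - 1, by omega⟩
        simp only [Nat.add_sub_cancel]
        field_simp
        ring
    rw [h5]
    exact h3
  have e : (r / s) ^ k = r ^ k * (s ^ k)⁻¹ := by rw [div_pow, div_eq_mul_inv]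
  rw [e]
  have h6 : HasDerivAt χ (deriv χ (r ^ k * (s ^ k)⁻¹)) (r ^ k * (s ^ k)⁻¹) :=
    (hχ.differentiable (by simp)).differentiableAt.hasDerivAt
  exact (h6.comp s h2).deriv

/-- row HUD -/
theorem hud (chi : ChiStmt) (rad : RadStmt) (vod : VodStmt) (rgr : RgrStmt) (err : ErrStmt) :
    HudStmt := by
  intro d N B f x R κ hd hf hL hR hκ
  obtain ⟨k, rfl⟩ : ∃ k, d = k + 2 := ⟨d - 2, by omega⟩
  have hk1 : 1 ≤ k := by omega
  have hk0 : (0 : ℝ) < k := by exact_mod_cast hk1
  have hkr : (1 : ℝ) ≤ k := by exact_mod_cast hk1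
  obtain ⟨χ, hχ, hanti, hχ1, hχ0, hχb, hχz, hχi⟩ := chi
  have hrng := chi_rng hanti hχ1 hχ0
  obtain ⟨S, hS⟩ : ∃ S : ℝ, S = sphd (k + 2) := ⟨_, rfl⟩
  have hS0 : 0 < S := by rw [hS]; exact (vod.1 (k + 2) (by omega)).1
  have hvolb : ∀ (x : En (k + 2)) (ρ : ℝ), 0 ≤ ρ →
      volume.real (Metric.closedBall x ρ) = S / ((k + 2 : ℕ) : ℝ) * ρ ^ (k + 2) := by
    rw [hS]
    exact (vod.1 (k + 2) (by omega)).2
  have hcast : (((k + 2 : ℕ) : ℝ) - 2) = k := by
    push_cast
    ring
  have hsub : k + 2 - 2 = k := by omega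
  rw [hcast, hsub, ← hS]
  obtain ⟨M0, hM0⟩ : ∃ M0 : ℝ, M0 = 2 * |B| * N ^ 2 * (25 / 4) * k * 4 ^ (k + 2) := ⟨_, rfl⟩
  have hM00 : 0 ≤ M0 := by rw [hM0]; positivity
  obtain ⟨κ', hκ'⟩ : ∃ κ' : ℝ, κ' = κ * S / (M0 + 1) := ⟨_, rfl⟩
  have hκ'0 : 0 < κ' := by rw [hκ']; positivity
  obtain ⟨ρ₀, hρ₀, hρ⟩ := leb_unif hL hκ'0
  refine ⟨min (min (R / 4) (ρ₀ / 4)) (min 1 (κ / 4 ^ (k + 2))), by positivity,
    fun r hr0 hr => ?_⟩
  have hr1 : r < R / 4 := lt_of_lt_of_le hr ((min_le_left _ _).trans (min_le_left _ _))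
  have hr2 : r < ρ₀ / 4 := lt_of_lt_of_le hr ((min_le_left _ _).trans (min_le_right _ _))
  have hr3 : r < 1 := lt_of_lt_of_le hr ((min_le_right _ _).trans (min_le_left _ _))
  have hr4 : r < κ / 4 ^ (k + 2) := lt_of_lt_of_le hr ((min_le_right _ _).trans (min_le_right _ _))
  obtain ⟨γ, hγ⟩ : ∃ γ : ℝ, γ = k * S * r ^ k := ⟨_, rfl⟩
  rw [← hγ]
  have hγ0 : 0 < γ := by rw [hγ]; positivity
  obtain ⟨a, ha⟩ : ∃ a : ℝ, a = (8 / 7 : ℝ) ^ ((k : ℝ)⁻¹) := ⟨_, rfl⟩
  have ha0 : 0 < a := by rw [ha]; positivity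
  have hak : a ^ k = 8 / 7 := by
    rw [ha]
    exact Real.rpow_inv_natCast_pow (by norm_num) (by omega)
  have ha1 : 1 < a := by
    by_contra hcon
    push Not at hcon
    have := pow_le_one₀ ha0.le hcon (n := k)
    rw [hak] at this
    norm_num at this
  have hq0 : ∀ s, s ≤ a * r → qd k χ r s = 0 := by
    intro s hs
    rcases le_or_gt s 0 with h | h
    · exact if_pos h
    · rw [qd_pos h]
      apply hχ0
      rw [div_pow, le_div_iff₀ (by positivity)]
      have h1 : s ^ k ≤ (a * r) ^ k := pow_le_pow_left₀ h.le hs k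
      rw [mul_pow, hak] at h1
      linarith
  have hq1 : ∀ s, 4 * r ≤ s → qd k χ r s = 1 := by
    intro s hs
    have h : 0 < s := by linarith
    rw [qd_pos h]
    apply hχ1
    have h1 : r / s ≤ 1 / 4 := by
      rw [div_le_iff₀ h]
      linarith
    have h2 : 0 ≤ r / s := by positivity
    calc (r / s) ^ k ≤ (1 / 4) ^ k := pow_le_pow_left₀ h2 h1 k
      _ ≤ (1 / 4) ^ 1 := pow_le_pow_of_le_one (by norm_num) (by norm_num) hk1
      _ = 1 / 4 := pow_one _
  -- the derivative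
  have hd2 : ∀ s, deriv (qd k χ r) s ^ 2 ≤ 25 / 4 * (k ^ 2 * (r ^ 2)⁻¹) := by
    intro s
    rcases lt_or_ge s (a * r) with h | h
    · rw [deriv_zero_of_lt hq0 h]
      have h00 : 0 ≤ 25 / 4 * ((k : ℝ) ^ 2 * (r ^ 2)⁻¹) := by positivity
      rw [zero_pow two_ne_zero]
      exact h00
    · have hs : 0 < s := lt_of_lt_of_le (by positivity) h
      have hrs : r ≤ s := by nlinarith
      rw [qd_deriv hχ hs, mul_pow, neg_sq]
      have e1 : deriv χ ((r / s) ^ k) ^ 2 ≤ 25 / 4 := by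
        have := hχb ((r / s) ^ k)
        rw [← sq_abs]
        have h0 := abs_nonneg (deriv χ ((r / s) ^ k))
        nlinarith
      have e2 : (k * r ^ k / s ^ (k + 1)) ^ 2 ≤ (k : ℝ) ^ 2 * (r ^ 2)⁻¹ := by
        have e3 : k * r ^ k / s ^ (k + 1) ≤ k * r⁻¹ := by
          rw [div_le_iff₀ (by positivity), mul_assoc]
          refine mul_le_mul_of_nonneg_left ?_ hk0.le
          have e4 : r ^ (k + 1) ≤ s ^ (k + 1) := pow_le_pow_left₀ hr0.le hrs _
          have e5 : r ^ k = r⁻¹ * r ^ (k + 1) := by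
            rw [pow_succ]
            field_simp
          rw [e5]
          exact mul_le_mul_of_nonneg_left e4 (by positivity)
        have e6 : (k : ℝ) ^ 2 * (r ^ 2)⁻¹ = (k * r⁻¹) ^ 2 := by rw [mul_pow, inv_pow]
        rw [e6]
        exact pow_le_pow_left₀ (by positivity) e3 2
      exact mul_le_mul e1 e2 (by positivity) (by norm_num)
  have hχint : Integrable (fun s => deriv χ s ^ 2) := by
    have hc : Continuous (fun s => deriv χ s ^ 2) :=
      (hχ.continuous_deriv (by simp)).pow 2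
    refine hc.integrable_of_hasCompactSupport ?_
    refine HasCompactSupport.of_support_subset_isCompact
      (isCompact_Icc (a := (1 / 4 : ℝ)) (b := 7 / 8)) ?_
    intro s hs
    rw [Function.mem_support] at hs
    by_contra hcon
    apply hs
    have : s ≤ 1 / 4 ∨ 7 / 8 ≤ s := by
      by_contra h
      push Not at h
      exact hcon ⟨h.1.le, h.2.le⟩
    rw [hχz s this]
    norm_num
  refine ⟨_, cut_ofd (q := qd k χ r) (r' := a * r) (R' := 4 * r)
    (δ := 25 / 4 * k ^ 2 * κ' * 4 ^ (k + 2) * r ^ k) rad rgr err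
    (by omega) hf x hr0 (by nlinarith) (by linarith) ?_ hq0 hq1 ?_ ?_ ?_ ?_ ?_⟩
  · -- smooth
    have h1 : ContDiffOn ℝ ((⊤ : ℕ∞) : WithTop ℕ∞) (fun s => χ ((r / s) ^ k)) (Ioi 0) :=
      hχ.comp_contDiffOn ((contDiffOn_const.div contDiffOn_id fun s hs => ne_of_gt hs).pow k)
    exact h1.congr fun s hs => qd_pos hs
  · intro s
    rcases le_or_gt s 0 with h | h
    · have : qd k χ r s = 0 := if_pos h
      rw [this]
      norm_num
    · rw [qd_pos h]
      exact hrng _
  · -- energy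
    rw [← hS]
    have hrk : 0 < r ^ k := by positivity
    have e2 : ∫ ρ in Ioi (0 : ℝ), ρ ^ (k + 2 - 1) * deriv (qd k χ r) ρ ^ 2 =
        k * r ^ k * ∫ s in Ioi (0 : ℝ), deriv χ s ^ 2 := by
      have e3 := integral_comp_rpow_Ioi
        (fun s : ℝ => k * (r ^ k) ^ 2 * deriv χ (r ^ k * s) ^ 2)
        (p := (-(k : ℝ))) (by linarith)
      have e4 : ∫ ρ in Ioi (0 : ℝ), ρ ^ (k + 2 - 1) * deriv (qd k χ r) ρ ^ 2 =
          ∫ s in Ioi (0 : ℝ), (|(-(k : ℝ))| * s ^ ((-(k : ℝ)) - 1)) •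
            (fun s : ℝ => k * (r ^ k) ^ 2 * deriv χ (r ^ k * s) ^ 2) (s ^ (-(k : ℝ))) := by
        refine setIntegral_congr_fun measurableSet_Ioi (fun s hs => ?_)
        have hs0 : (0 : ℝ) < s := hs
        simp only [smul_eq_mul]
        rw [qd_deriv hχ hs0]
        have a1 : s ^ ((-(k : ℝ)) - 1) = (s ^ (k + 1))⁻¹ := by
          have : ((-(k : ℝ)) - 1) = -((k + 1 : ℕ) : ℝ) := by push_cast; ring
          rw [this, Real.rpow_neg hs0.le, Real.rpow_natCast]
        have a2 : s ^ (-(k : ℝ)) = (s ^ k)⁻¹ := by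
          rw [Real.rpow_neg hs0.le, Real.rpow_natCast]
        have a3 : k + 2 - 1 = k + 1 := by omega
        have a4 : (r / s) ^ k = r ^ k * (s ^ k)⁻¹ := by rw [div_pow, div_eq_mul_inv]
        rw [a1, a2, a3, a4, abs_neg, abs_of_pos hk0, mul_pow, neg_sq, div_pow, mul_pow]
        field_simp
      rw [e4, e3, integral_const_mul,
        integral_comp_mul_left_Ioi (fun s : ℝ => deriv χ s ^ 2) 0 hrk, mul_zero, smul_eq_mul]
      field_simp
    have e5 : ∫ s in Ioi (0 : ℝ), deriv χ s ^ 2 ≤ 5 / 2 :=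
      (setIntegral_le_integral hχint (Eventually.of_forall fun s => sq_nonneg _)).trans hχi
    rw [e2]
    calc S * (k * r ^ k * ∫ s in Ioi (0 : ℝ), deriv χ s ^ 2)
        = (k * S * r ^ k) * ∫ s in Ioi (0 : ℝ), deriv χ s ^ 2 := by ring
      _ ≤ (k * S * r ^ k) * (5 / 2) :=
          mul_le_mul_of_nonneg_left e5 (by positivity)
      _ = 5 / 2 * γ := by rw [hγ]; ring
  · -- error
    intro i
    have hm : Measurable (fun y => |f i y - f i x|) := ((hf i).1.sub measurable_const).abs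
    have hio : IntegrableOn (fun y => |f i y - f i x|) (Metric.closedBall x (4 * r)) := by
      refine Measure.integrableOn_of_bounded (M := 2 * B) measure_closedBall_lt_top.ne
        hm.aestronglyMeasurable (Eventually.of_forall fun y => ?_)
      have a1 := (hf i).2 y
      have a2 := (hf i).2 x
      rw [Real.norm_eq_abs, abs_abs]
      have a3 := abs_sub (f i y) (f i x)
      linarith
    have hii : Integrable (fun y => 25 / 4 * ((k : ℝ) ^ 2 * (r ^ 2)⁻¹) *
        (Metric.closedBall x (4 * r)).indicator (fun y => |f i y - f i x|) y) :=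
      (hio.integrable_indicator Metric.isClosed_closedBall.measurableSet).const_mul _
    calc ∫ y, |f i y - f i x| * deriv (qd k χ r) ‖y - x‖ ^ 2
        ≤ ∫ y, 25 / 4 * ((k : ℝ) ^ 2 * (r ^ 2)⁻¹) *
          (Metric.closedBall x (4 * r)).indicator (fun y => |f i y - f i x|) y := by
          refine integral_mono_of_nonneg (Eventually.of_forall fun y => by positivity) hii
            (Eventually.of_forall fun y => ?_)
          by_cases hy : y ∈ Metric.closedBall x (4 * r)
          · simp only [indicator_of_mem hy]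
            have := mul_le_mul_of_nonneg_left (hd2 ‖y - x‖) (abs_nonneg (f i y - f i x))
            linarith
          · simp only [indicator_of_notMem hy]
            rw [Metric.mem_closedBall, dist_eq_norm] at hy
            push Not at hy
            rw [deriv_zero_of_gt hq1 hy]
            simp
      _ = 25 / 4 * ((k : ℝ) ^ 2 * (r ^ 2)⁻¹) *
          ∫ y in Metric.closedBall x (4 * r), |f i y - f i x| := by
          rw [integral_const_mul, integral_indicator Metric.isClosed_closedBall.measurableSet]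
      _ ≤ 25 / 4 * ((k : ℝ) ^ 2 * (r ^ 2)⁻¹) * (κ' * (4 * r) ^ (k + 2)) :=
          mul_le_mul_of_nonneg_left (hρ i (4 * r) (by positivity) (by linarith)) (by positivity)
      _ = 25 / 4 * k ^ 2 * κ' * 4 ^ (k + 2) * r ^ k := by
          rw [mul_pow, pow_add r k 2]
          field_simp
  · -- constants
    have a1 : M0 * κ' ≤ κ * S := by
      rw [hκ']
      have : M0 * (κ * S / (M0 + 1)) = κ * S * M0 / (M0 + 1) := by field_simp
      rw [this, div_le_iff₀ (by positivity)]
      have : 0 < κ * S := by positivity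
      nlinarith
    have a2 : 2 * |B| * N * (N * (25 / 4 * k ^ 2 * κ' * 4 ^ (k + 2) * r ^ k)) =
        (M0 * κ') * (k * r ^ k) := by
      rw [hM0]
      ring
    rw [a2]
    calc (M0 * κ') * (k * r ^ k) ≤ (κ * S) * (k * r ^ k) :=
          mul_le_mul_of_nonneg_right a1 (by positivity)
      _ = κ * γ := by rw [hγ]; ring
  · -- volume
    have a1 : volume.real (Metric.ball x (4 * r)) ≤ volume.real (Metric.closedBall x (4 * r)) :=
      measureReal_mono Metric.ball_subset_closedBall measure_closedBall_lt_top.ne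
    rw [hvolb x (4 * r) (by positivity)] at a1
    refine a1.trans ?_
    have a2 : S / ((k + 2 : ℕ) : ℝ) ≤ S := by
      apply div_le_self hS0.le
      push_cast
      linarith
    have a3 : (4 * r) ^ (k + 2) = 4 ^ (k + 2) * r * (r * r ^ k) := by
      rw [mul_pow, pow_add r k 2]
      ring
    have a4 : 4 ^ (k + 2) * r ≤ κ := by
      rw [lt_div_iff₀ (by positivity)] at hr4
      linarith
    have a5 : r * r ^ k ≤ k * r ^ k :=
      mul_le_mul_of_nonneg_right (by linarith) (by positivity)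
    calc S / ((k + 2 : ℕ) : ℝ) * (4 * r) ^ (k + 2) ≤ S * (4 * r) ^ (k + 2) :=
          mul_le_mul_of_nonneg_right a2 (by positivity)
      _ = S * (4 ^ (k + 2) * r * (r * r ^ k)) := by rw [a3]
      _ ≤ S * (κ * (k * r ^ k)) := by
          refine mul_le_mul_of_nonneg_left ?_ hS0.le
          exact mul_le_mul a4 a5 (by positivity) hκ.le
      _ = κ * γ := by rw [hγ]; ring

end

end Pool.Agent.BEH.H60
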