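import Pool.Agent.BEH.Stmts

set_option autoImplicit false

/-!
# Squad BEH (MP_be01ff_an), row PRE: the product of the cut-off functions
-/

namespace Pool.Agent.BEH.H60

open Set Filter Topology MeasureTheory
open scoped InnerProductSpace ENNReal
open Pool.Agent.BE01 Pool.Agent.BEL Pool.Agent.BEH

theorem grad_congr {d : ℕ} {u v : En d → ℝ} {y : En d} (h : u =ᶠ[𝓝 y] v) :
    gradient u y = gradient v y := by
  unfold gradient
  rw [h.fderiv_eq]

theorem grad_const {d : ℕ} (c : ℝ) (y : En d) : gradient (fun _ : En d => c) y = 0 := by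
  unfold gradient
  rw [fderiv_fun_const]
  simp

theorem pre : PreStmt := by
  classical
  intro d Ω N J f x w R D κ ε r η ψ g h S H hH
  -- the radii
  have h1 : ∀ j, ∃ R' : ℝ, R' < R ∧ ∀ y, R' ≤ ‖y - x j‖ → η j y = 1 := fun j => (S.cut j).one
  have h0 : ∀ j, ∃ r' : ℝ, r j < r' ∧ ∀ y, ‖y - x j‖ ≤ r' → η j y = 0 := fun j => (S.cut j).zero
  -- near a point outside of the ball `j` of radius `R` the function `η j` is one
  have hout : ∀ j y, R ≤ ‖y - x j‖ → η j =ᶠ[𝓝 y] fun _ => (1 : ℝ) := by
    intro j y hy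
    obtain ⟨R', hR', hR1⟩ := h1 j
    have hc : Continuous fun z : En d => ‖z - x j‖ := (continuous_id.sub continuous_const).norm
    have ho : IsOpen {z : En d | R' < ‖z - x j‖} := isOpen_lt continuous_const hc
    filter_upwards [ho.mem_nhds (show R' < ‖y - x j‖ by linarith)] with z hz
    exact hR1 z (le_of_lt hz)
  have hin : ∀ j y, ‖y - x j‖ ≤ r j → η j =ᶠ[𝓝 y] fun _ => (0 : ℝ) := by
    intro j y hy
    obtain ⟨r', hr', hr0⟩ := h0 j
    have hc : Continuous fun z : En d => ‖z - x j‖ := (continuous_id.sub continuous_const).norm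
    have ho : IsOpen {z : En d | ‖z - x j‖ < r'} := isOpen_lt hc continuous_const
    filter_upwards [ho.mem_nhds (show ‖y - x j‖ < r' by linarith)] with z hz
    exact hr0 z (le_of_lt hz)
  have hdis : ∀ i j y, i ≠ j → ‖y - x j‖ < R → R ≤ ‖y - x i‖ := by
    intro i j y hij hy
    by_contra hcon
    rw [not_le] at hcon
    have hi : y ∈ Metric.closedBall (x i) R := by
      rw [Metric.mem_closedBall, dist_eq_norm]
      exact hcon.le
    have hj : y ∈ Metric.closedBall (x j) R := by
      rw [Metric.mem_closedBall, dist_eq_norm]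
      exact hy.le
    exact Set.disjoint_left.1 (S.dis i j hij) hi hj
  have hHout : ∀ y, (∀ j, R ≤ ‖y - x j‖) → H =ᶠ[𝓝 y] fun _ => (1 : ℝ) := by
    intro y hy
    have hall : ∀ᶠ z in 𝓝 y, ∀ j, η j z = 1 := Filter.eventually_all.2 fun j => hout j y (hy j)
    filter_upwards [hall] with z hz
    rw [hH]
    exact Finset.prod_eq_one fun j _ => hz j
  have hHin : ∀ j y, ‖y - x j‖ < R → H =ᶠ[𝓝 y] η j := by
    intro j y hy
    have hall : ∀ᶠ z in 𝓝 y, ∀ i, i ≠ j → η i z = 1 := by
      refine Filter.eventually_all.2 fun i => ?_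
      by_cases hij : i = j
      · exact Filter.Eventually.of_forall fun z h => absurd hij h
      · filter_upwards [hout i y (hdis i j y hij hy)] with z hz _
        exact hz
    filter_upwards [hall] with z hz
    rw [hH]
    exact Finset.prod_eq_single j (fun i _ hij => hz i hij)
      (fun hj => absurd (Finset.mem_univ j) hj)
  have hzero : ∀ y j, ‖y - x j‖ ≤ r j → H =ᶠ[𝓝 y] fun _ => (0 : ℝ) := by
    intro y j hy
    filter_upwards [hin j y hy] with z hz
    rw [hH]
    exact Finset.prod_eq_zero (Finset.mem_univ j) hz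
  have hsmooth : ContDiff ℝ ((⊤ : ℕ∞) : WithTop ℕ∞) H := by
    rw [hH]
    exact contDiff_prod fun j _ => (S.cut j).smooth
  have hgr : ∀ y, ‖gradient H y‖ ^ 2 = ∑ j, ‖gradient (η j) y‖ ^ 2 := by
    intro y
    by_cases hex : ∃ j, ‖y - x j‖ < R
    · obtain ⟨j, hj⟩ := hex
      rw [grad_congr (hHin j y hj)]
      symm
      apply Finset.sum_eq_single (f := fun i => ‖gradient (η i) y‖ ^ 2) j
      · intro i _ hij
        rw [grad_congr (hout i y (hdis i j y hij hj)), grad_const, norm_zero]
        norm_num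
      · intro hj'
        exact absurd (Finset.mem_univ j) hj'
    · have hall : ∀ j, R ≤ ‖y - x j‖ := fun j => not_lt.1 fun hj => hex ⟨j, hj⟩
      rw [grad_congr (hHout y hall), grad_const, norm_zero]
      refine (Eq.trans ?_ (Finset.sum_eq_zero fun j _ => ?_).symm)
      · norm_num
      · rw [grad_congr (hout j y (hall j)), grad_const, norm_zero]
        norm_num
  have hnl : ∀ y, y ∈ Ω → y ∉ Hl Ω x r → ∃ j, ‖y - x j‖ ≤ r j := by
    intro y hy hn
    by_contra hcon
    apply hn
    refine ⟨hy, fun hmem => hcon ?_⟩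
    obtain ⟨j, hj⟩ := mem_iUnion.1 hmem
    rw [Metric.mem_closedBall, dist_eq_norm] at hj
    exact ⟨j, hj⟩
  refine ⟨hsmooth, ?_, ?_, hgr, ?_, ?_, ?_⟩
  · intro y
    rw [hH]
    exact ⟨Finset.prod_nonneg fun j _ => ((S.cut j).rng y).1,
      Finset.prod_le_one (fun j _ => ((S.cut j).rng y).1) fun j _ => ((S.cut j).rng y).2⟩
  · -- boundedness of the gradient
    have hcont : Continuous fun y => fderiv ℝ H y :=
      hsmooth.continuous_fderiv (by simp)
    have hK : IsCompact (⋃ j, Metric.closedBall (x j) R) :=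
      isCompact_iUnion fun j => isCompact_closedBall _ _
    obtain ⟨C, hC⟩ := hK.exists_bound_of_continuousOn hcont.continuousOn
    refine ⟨max C 0, fun y => ?_⟩
    by_cases hex : ∃ j, ‖y - x j‖ < R
    · obtain ⟨j, hj⟩ := hex
      have hmem : y ∈ ⋃ j, Metric.closedBall (x j) R := by
        refine mem_iUnion.2 ⟨j, ?_⟩
        rw [Metric.mem_closedBall, dist_eq_norm]
        exact hj.le
      have h2 := hC y hmem
      unfold gradient
      rw [LinearIsometryEquiv.norm_map]
      exact h2.trans (le_max_left _ _)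
    · have hall : ∀ j, R ≤ ‖y - x j‖ := fun j => not_lt.1 fun hj => hex ⟨j, hj⟩
      rw [grad_congr (hHout y hall), grad_const, norm_zero]
      exact le_max_right _ _
  · intro y hy
    by_contra hn
    obtain ⟨j, hj⟩ := hnl y hy.2 hn
    exact notMem_tsupport_iff_eventuallyEq.2 (hzero y j hj) hy.1
  · intro y hy hn
    obtain ⟨j, hj⟩ := hnl y hy hn
    exact ⟨(hzero y j hj).eq_of_nhds, by rw [grad_congr (hzero y j hj), grad_const]⟩
  · intro y hy
    by_contra hn
    apply hy
    rw [hH]
    refine Finset.prod_eq_one fun j _ => ?_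
    by_contra hj
    exact hn (mem_iUnion.2 ⟨j, hj⟩)

end Pool.Agent.BEH.H60
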